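import Mathlib
import Pool.Agent.Helper11_PGL.StmtK

/-!
# PGL, module HBL: the local inequality for a vector with power values
-/

open PGH PGH.Place

universe u

namespace PGL.H18

/-- the vectors whose linear form has order at least `a` at `y` -/
def geSub {k E : Type*} [Field k] [Field E] [Algebra k E] {ι : Type*} [Fintype ι]
    (v : Place k E) (y : ι → E) (a : ℤ) : Submodule k (ι → k) where
  carrier := {c | v.Ge a (lin c y)}
  add_mem' := by
    intro c d hc hd
    have h : lin (c + d) y = lin c y + lin d y := by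
      unfold lin
      rw [← Finset.sum_add_distrib]
      refine Finset.sum_congr rfl (fun j _ => ?_)
      simp [add_mul]
    show v.Ge a (lin (c + d) y)
    rw [h]
    exact Ge.add hc hd
  zero_mem' := by
    have h : lin (0 : ι → k) y = 0 := by
      unfold lin
      simp
    show v.Ge a (lin (0 : ι → k) y)
    rw [h]
    exact v.ge_zero a
  smul_mem' := by
    intro r c hc
    have h : lin (r • c) y = r • lin c y := by
      unfold lin
      rw [Finset.smul_sum]
      refine Finset.sum_congr rfl (fun j _ => ?_)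
      simp [Algebra.smul_def, mul_assoc]
    show v.Ge a (lin (r • c) y)
    rw [h]
    exact Ge.smul hc r

theorem lin_single {k E : Type*} [Field k] [Field E] [Algebra k E] {ι : Type*} [Fintype ι]
    [DecidableEq ι] (y : ι → E) (j : ι) : lin (Pi.single j (1 : k)) y = y j := by
  unfold lin
  rw [Finset.sum_eq_single j]
  · simp
  · intro b _ hb
    simp [Pi.single_eq_of_ne hb]
  · intro h
    exact absurd (Finset.mem_univ j) h

theorem ge_lin {k E : Type*} [Field k] [Field E] [Algebra k E] {ι : Type*} [Fintype ι]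
    (v : Place k E) (y : ι → E) (a : ℤ) (h : ∀ j, v.Ge a (y j)) (c : ι → k) :
    v.Ge a (lin c y) := by
  unfold lin
  exact Ge.sum (fun j _ => (v.ge_const (c j)).mul' (h j) (by simp))

theorem exists_ord_eq {k E : Type*} [Field k] [Field E] [Algebra k E] {n N : ℕ}
    (v : Place k E) (p : Fin N → Fin (n + 1) → k) (y : Fin (n + 1) → E) (α : ℤ)
    (hp : ∀ s : Finset (Fin N), s.card = n + 1 → LinearIndependent k (fun i : s => p i))
    (hnN : n < N) (hge : ∀ j, v.Ge α (y j)) (hne : ∃ j, ¬ v.Ge (α + 1) (y j))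
    (hl : ∀ i, lin (p i) y ≠ 0) : ∃ i, v.ord (lin (p i) y) = α := by
  by_contra hcon
  push Not at hcon
  have h1 : ∀ i, v.Ge (α + 1) (lin (p i) y) := by
    intro i
    rw [v.ge_iff (hl i)]
    have h2 : α ≤ v.ord (lin (p i) y) := (v.ge_iff (hl i)).1 (ge_lin v y α hge (p i))
    have h3 := hcon i
    omega
  obtain ⟨s, _, hs⟩ := Finset.exists_subset_card_eq
    (show n + 1 ≤ (Finset.univ : Finset (Fin N)).card by simp; omega)
  have hli := hp s hs
  have hspan : Submodule.span k (Set.range (fun i : s => p i)) = ⊤ := by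
    apply hli.span_eq_top_of_card_eq_finrank'
    simp [hs]
  have hle : Submodule.span k (Set.range (fun i : s => p i)) ≤ geSub v y (α + 1) := by
    rw [Submodule.span_le]
    rintro _ ⟨i, rfl⟩
    exact h1 i
  rw [hspan] at hle
  obtain ⟨j, hj⟩ := hne
  apply hj
  have h4 : (Pi.single j (1 : k) : Fin (n + 1) → k) ∈ geSub v y (α + 1) := hle trivial
  have h5 : v.Ge (α + 1) (lin (Pi.single j (1 : k)) y) := h4
  rwa [lin_single] at h5

theorem hbl : HblStmt.{u} := by
  intro k E _ _ _ _ _ _ n N m v p y α u β z hp hnN hm hge hne hl heq i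
  obtain ⟨i0, hi0⟩ := exists_ord_eq v p y α hp hnN hge hne hl
  have h1 : α ≤ v.ord (lin (p i) y) := (v.ge_iff (hl i)).1 (ge_lin v y α hge (p i))
  refine ⟨h1, ?_, ?_⟩
  · intro hβ
    have hord : ∀ j, v.ord (lin (p j) y) = v.ord u + m * v.ord (z j) := by
      intro j
      have h2 : u * β j * z j ^ m ≠ 0 := by
        rw [← heq j]
        exact hl j
      have hu : u * β j ≠ 0 := left_ne_zero_of_mul h2
      have hz : z j ^ m ≠ 0 := right_ne_zero_of_mul h2
      rw [heq j, v.ord_mul hu hz, v.ord_mul (left_ne_zero_of_mul hu) (right_ne_zero_of_mul hu),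
        hβ j, v.ord_pow]
      ring
    have h3 : v.ord (lin (p i) y) - α = m * (v.ord (z i) - v.ord (z i0)) := by
      rw [← hi0, hord i, hord i0]
      ring
    have h4 : v.ord (lin (p i) y) - α ≠ 1 := by
      intro h5
      rw [h5] at h3
      have h6 : (m : ℤ) ∣ 1 := ⟨_, h3⟩
      have h7 : (m : ℤ) ≤ 1 := Int.le_of_dvd one_pos h6
      omega
    have h8 := le_max_right (0 : ℤ) (v.ord (lin (p i) y) - α - 1)
    have h9 := le_max_left (0 : ℤ) (v.ord (lin (p i) y) - α - 1)
    omega
  · have h8 := le_max_right (0 : ℤ) (v.ord (lin (p i) y) - α - 1)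
    have h9 := le_max_left (0 : ℤ) (v.ord (lin (p i) y) - α - 1)
    omega

end PGL.H18
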