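import Mathlib
import Pool.Agent.Helper11_PGL.StmtK

/-!
# PGL, module MATR: existence of a nonzero maximal minor which contains `A`
-/

open PGH

universe u

namespace PGL.H18

/-- the columns of `A` and of `B` -/
def cols {E : Type*} [Field E] {a b : ℕ} (A B : Matrix (Fin a) (Fin b) E) :
    Fin b ⊕ Fin b → Fin a → E := Sum.elim (fun j i => A i j) (fun j i => B i j)

theorem span_cols {E : Type*} [Field E] {a b : ℕ} (A B : Matrix (Fin a) (Fin b) E)
    (h : ∀ w : Fin a → E, Matrix.vecMul w A = 0 → Matrix.vecMul w B = 0 → w = 0) :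
    Submodule.span E (Set.range (cols A B)) = ⊤ := by
  by_contra hne
  obtain ⟨f, hf0, hf⟩ := Submodule.exists_le_ker_of_lt_top _ (lt_top_iff_ne_top.2 hne)
  have hfv : ∀ x : Fin a → E, f x = ∑ i, f (Pi.single i 1) * x i := by
    intro x
    conv_lhs => rw [← Finset.univ_sum_single x]
    rw [map_sum]
    refine Finset.sum_congr rfl (fun i _ => ?_)
    have h1 : (Pi.single i (x i) : Fin a → E) = x i • Pi.single i 1 := by
      rw [← Pi.single_smul]
      simp
    rw [h1, map_smul, smul_eq_mul, mul_comm]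
  have hmem : ∀ j, f (cols A B j) = 0 := fun j =>
    hf (Submodule.subset_span (Set.mem_range_self j))
  have hw := h (fun i => f (Pi.single i 1)) (by
    ext j
    have h2 := hmem (Sum.inl j)
    rw [hfv] at h2
    simpa [cols, Matrix.vecMul, dotProduct] using h2) (by
    ext j
    have h2 := hmem (Sum.inr j)
    rw [hfv] at h2
    simpa [cols, Matrix.vecMul, dotProduct] using h2)
  apply hf0
  ext i
  have h3 := congrFun hw i
  simpa using h3

/-- the map `(x, y) ↦ A x + B y` -/
def phi {E : Type*} [Field E] {a b : ℕ} (A B : Matrix (Fin a) (Fin b) E) :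
    ((Fin b → E) × (Fin b → E)) →ₗ[E] (Fin a → E) :=
  (Matrix.mulVecLin A).comp (LinearMap.fst E _ _) + (Matrix.mulVecLin B).comp (LinearMap.snd E _ _)

theorem phi_apply {E : Type*} [Field E] {a b : ℕ} (A B : Matrix (Fin a) (Fin b) E)
    (x : (Fin b → E) × (Fin b → E)) : phi A B x = A.mulVec x.1 + B.mulVec x.2 := rfl

theorem phi_surj {E : Type*} [Field E] {a b : ℕ} (A B : Matrix (Fin a) (Fin b) E)
    (h : ∀ w : Fin a → E, Matrix.vecMul w A = 0 → Matrix.vecMul w B = 0 → w = 0) :
    LinearMap.range (phi A B) = ⊤ := by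
  rw [eq_top_iff, ← span_cols A B h, Submodule.span_le]
  rintro _ ⟨j, rfl⟩
  rcases j with j | j
  · refine ⟨(Pi.single j 1, 0), ?_⟩
    rw [phi_apply]
    ext i
    simp [cols]
  · refine ⟨(0, Pi.single j 1), ?_⟩
    rw [phi_apply]
    ext i
    simp [cols]

theorem matr_inj {E : Type*} [Field E] {H δ : ℕ}
    (A B : Matrix (Fin (H + δ + δ)) (Fin (H + δ)) E)
    (P Q : Matrix (Fin (H + δ)) (Fin H) E) (hAB : A * Q = B * P)
    (hP : Function.Injective P.mulVec)
    (h : ∀ w : Fin (H + δ + δ) → E, Matrix.vecMul w A = 0 → Matrix.vecMul w B = 0 → w = 0) :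
    Function.Injective A.mulVec := by
  have hfin : Module.finrank E (LinearMap.ker (phi A B)) = H := by
    have h1 := LinearMap.finrank_range_add_finrank_ker (phi A B)
    rw [phi_surj A B h] at h1
    simp only [finrank_top, Module.finrank_fin_fun, Module.finrank_prod] at h1
    omega
  have hk : ∀ z : Fin H → E, (Q.mulVec z, -P.mulVec z) ∈ LinearMap.ker (phi A B) := by
    intro z
    rw [LinearMap.mem_ker, phi_apply]
    simp only [Matrix.mulVec_neg, Matrix.mulVec_mulVec, hAB]
    exact add_neg_cancel _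
  let psi : (Fin H → E) →ₗ[E] LinearMap.ker (phi A B) :=
    { toFun := fun z => ⟨(Q.mulVec z, -P.mulVec z), hk z⟩
      map_add' := by
        intro x y
        ext i <;> simp [Matrix.mulVec_add, add_comm]
      map_smul' := by
        intro r x
        ext i <;> simp [Matrix.mulVec_smul] }
  have hpsi : Function.Injective psi := by
    intro x y hxy
    apply hP
    have h1 : (psi x).1.2 = (psi y).1.2 := by rw [hxy]
    exact neg_injective h1
  have hsurj : Function.Surjective psi := by
    rw [← LinearMap.injective_iff_surjective_of_finrank_eq_finrank]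
    · exact hpsi
    · rw [hfin, Module.finrank_fin_fun]
  have hker : ∀ x : Fin (H + δ) → E, A.mulVec x = 0 → x = 0 := by
    intro x hx
    have hxk : (x, (0 : Fin (H + δ) → E)) ∈ LinearMap.ker (phi A B) := by
      rw [LinearMap.mem_ker, phi_apply]
      simp [hx]
    obtain ⟨z, hz⟩ := hsurj ⟨_, hxk⟩
    have h1 : Q.mulVec z = x := congrArg (fun t => t.1.1) hz
    have h2 : -P.mulVec z = 0 := congrArg (fun t => t.1.2) hz
    have h3 : P.mulVec z = P.mulVec 0 := by
      rw [Matrix.mulVec_zero]
      exact neg_eq_zero.1 h2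
    have h4 := hP h3
    rw [← h1, h4, Matrix.mulVec_zero]
  intro x y hxy
  have h1 : A.mulVec (x - y) = 0 := by
    rw [Matrix.mulVec_sub, hxy, sub_self]
  exact sub_eq_zero.1 (hker _ h1)

theorem matr : MatRStmt.{u} := by
  classical
  intro E _ H δ A B P Q hAB hP h
  have hA := matr_inj A B P Q hAB hP h
  have hli : LinearIndependent E A.col := Matrix.mulVec_injective_iff.1 hA
  have hli' : LinearIndepOn E (cols A B) (Set.range Sum.inl) := by
    have h1 : LinearIndependent E (cols A B ∘ Sum.inl) := hli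
    exact (linearIndepOn_range_iff Sum.inl_injective (cols A B)).2 h1
  obtain ⟨b, -, hab, hspan, hb⟩ := exists_linearIndepOn_extension hli'
    (Set.subset_univ (Set.range Sum.inl))
  have hspan' : Submodule.span E (Set.range (fun x : b => cols A B x)) = ⊤ := by
    rw [eq_top_iff, ← span_cols A B h, Submodule.span_le, ← Set.image_univ]
    rw [← Set.image_eq_range]
    exact hspan
  have hbli : LinearIndependent E (fun x : b => cols A B x) := hb
  have hcard : Fintype.card b = H + δ + δ := by
    have h1 := finrank_span_eq_card hbli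
    rw [hspan', finrank_top, Module.finrank_fin_fun] at h1
    exact h1.symm
  let c : Set (Fin (H + δ)) := {j | Sum.inr j ∈ b}
  have hbc : b ≃ Fin (H + δ) ⊕ c :=
    { toFun := fun x => match x with
        | ⟨Sum.inl j, _⟩ => Sum.inl j
        | ⟨Sum.inr j, hj⟩ => Sum.inr ⟨j, hj⟩
      invFun := fun x => match x with
        | Sum.inl j => ⟨Sum.inl j, hab (Set.mem_range_self j)⟩
        | Sum.inr j => ⟨Sum.inr j.1, j.2⟩
      left_inv := by
        rintro ⟨x | x, hx⟩ <;> rfl
      right_inv := by
        rintro (x | x) <;> rfl }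
  have hcc : Fintype.card c = δ := by
    have h1 := Fintype.card_congr hbc
    rw [hcard, Fintype.card_sum, Fintype.card_fin] at h1
    omega
  have hcc' : Fintype.card (cᶜ : Set (Fin (H + δ))) = H := by
    have h1 := Fintype.card_congr (Equiv.Set.sumCompl c)
    rw [Fintype.card_sum, Fintype.card_fin, hcc] at h1
    omega
  let e1 : Fin δ ≃ c := (Fintype.equivFinOfCardEq hcc).symm
  let e2 : Fin H ≃ (cᶜ : Set (Fin (H + δ))) := (Fintype.equivFinOfCardEq hcc').symm
  let σ : Fin H ⊕ Fin δ ≃ Fin (H + δ) :=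
    (Equiv.sumCongr e2 e1).trans ((Equiv.sumComm _ _).trans (Equiv.Set.sumCompl c))
  have hσ : ∀ j, σ (Sum.inr j) = (e1 j : Fin (H + δ)) := by
    intro j
    simp [σ]
  refine ⟨σ, ?_⟩
  let τ : Fin (H + δ) ⊕ Fin δ → b := fun x => match x with
    | Sum.inl j => ⟨Sum.inl j, hab (Set.mem_range_self j)⟩
    | Sum.inr j => ⟨Sum.inr (σ (Sum.inr j)), by rw [hσ j]; exact (e1 j).2⟩
  have hτ : Function.Injective τ := by
    rintro (x | x) (y | y) hxy
    · have h1 : (Sum.inl x : Fin (H + δ) ⊕ Fin (H + δ)) = Sum.inl y := congrArg Subtype.val hxy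
      rw [Sum.inl_injective h1]
    · have h1 : (Sum.inl x : Fin (H + δ) ⊕ Fin (H + δ)) = Sum.inr (σ (Sum.inr y)) :=
        congrArg Subtype.val hxy
      exact absurd h1 (by simp)
    · have h1 : (Sum.inr (σ (Sum.inr x)) : Fin (H + δ) ⊕ Fin (H + δ)) = Sum.inl y :=
        congrArg Subtype.val hxy
      exact absurd h1 (by simp)
    · have h1 : (Sum.inr (σ (Sum.inr x)) : Fin (H + δ) ⊕ Fin (H + δ)) =
          Sum.inr (σ (Sum.inr y)) := congrArg Subtype.val hxy
      have h2 := σ.injective (Sum.inr_injective h1)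
      rw [Sum.inr_injective h2]
  have hl1 : LinearIndependent E (fun x => cols A B (τ x)) := hbli.comp τ hτ
  have hl2 := hl1.map' (LinearEquiv.funCongrLeft E E
    (finSumFinEquiv : Fin (H + δ) ⊕ Fin δ ≃ Fin (H + δ + δ))).toLinearMap
    (LinearEquiv.ker _)
  unfold bigDet
  rw [← isUnit_iff_ne_zero, ← Matrix.isUnit_iff_isUnit_det, ← Matrix.linearIndependent_cols_iff_isUnit]
  have h3 : (Matrix.of (fun (i j : Fin (H + δ) ⊕ Fin δ) =>
      Sum.elim (fun j => A (finSumFinEquiv i) j)
        (fun j => B (finSumFinEquiv i) (σ (Sum.inr j))) j)).col =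
      ((LinearEquiv.funCongrLeft E E
        (finSumFinEquiv : Fin (H + δ) ⊕ Fin δ ≃ Fin (H + δ + δ))).toLinearMap ∘
        fun x => cols A B (τ x)) := by
    ext x i
    rcases x with x | x
    · simp [cols, τ, LinearEquiv.funCongrLeft_apply, LinearMap.funLeft_apply, Matrix.col]
    · simp [cols, τ, LinearEquiv.funCongrLeft_apply, LinearMap.funLeft_apply, Matrix.col]
  rw [h3]
  exact hl2

end PGL.H18
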